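import Pool.Agent.helper67.TSC.Spec
import Pool.Agent.helper89.EP.LHK

/-!
# Project ts (MP_ebc808_nt): module LHK3
-/

set_option autoImplicit false

open Finset Pool.Agent.EP

noncomputable section

namespace Pool.Agent.TSC

theorem LHK3_dvd (k m : ℕ) (h24 : k % 24 = 1) (hm : 1 ≤ m) : 24 ∣ k * (24 * m - 1) + 1 := by
  obtain ⟨q, hq⟩ : ∃ q, k = 24 * q + 1 := ⟨k / 24, by omega⟩
  obtain ⟨m', rfl⟩ : ∃ m', m = m' + 1 := ⟨m - 1, by omega⟩
  have h1 : 24 * (m' + 1) - 1 = 24 * m' + 23 := by omega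
  rw [h1, hq]
  exact ⟨q * (24 * m' + 23) + m' + 1, by ring⟩

/-- LHK3 -/
theorem LHK3 (hJN : JN_stmt) (hNRS : NRS_stmt) : LHK3_stmt := by
  intro a y k n ha hkp hk5 hSp hXT
  have hk24 : k % 24 = 1 := by omega
  have hN := (hNRS a y k n hkp hk5).1 hSp
  have hlt : 2 ^ a ≤ 24 * n + 3 := by
    obtain ⟨p₁, p₂, -, -, -, -, -, -, h⟩ := hSp
    rw [h]
    exact Nat.le_add_left _ _
  have hM : ((24 * n + 3 - 2 ^ a : ℕ) : ℤ) = 24 * (n : ℤ) + 3 - 2 ^ a := by
    rw [Nat.cast_sub hlt]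
    push_cast
    rfl
  have hA0 : (2 ^ a : ℤ) ≠ 0 := by positivity
  have hApos : (0 : ℤ) < 2 ^ a := by positivity
  -- the values for `r ∈ rs`
  have hrs : ∀ r ∈ rs (2 ^ a) n, 1 ≤ (n - tri r) / 2 ^ a ∧
      ((24 * n + 3 - 2 ^ a : ℕ) : ℤ) - 3 * ((2 * r + 1 : ℕ) : ℤ) ^ 2 =
        2 ^ a * (24 * (((n - tri r) / 2 ^ a : ℕ) : ℤ) - 1) := by
    intro r hr
    unfold rs at hr
    rw [Finset.mem_filter] at hr
    obtain ⟨_, hr1, hr2⟩ := hr
    have hm := Nat.mul_div_cancel' hr2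
    obtain ⟨m, hmdef⟩ : ∃ m, m = (n - tri r) / 2 ^ a := ⟨_, rfl⟩
    rw [← hmdef] at hm ⊢
    have hn : (n : ℤ) = tri r + 2 ^ a * m := by
      have : n = tri r + 2 ^ a * m := by omega
      exact_mod_cast this
    have ht : (3 : ℤ) * ((2 * r + 1 : ℕ) : ℤ) ^ 2 = 24 * (tri r : ℤ) + 3 := by
      exact_mod_cast LHK_tri r
    refine ⟨?_, ?_⟩
    · by_contra h0
      have h0' : m = 0 := by omega
      rw [h0', mul_zero] at hm
      have hnt : n = tri r := by omega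
      apply hXT
      refine ⟨2 * r + 1, ?_⟩
      rw [LHK_tri r, hnt]
    · rw [hM, ht, hn]
      ring
  refine ⟨?_, fun r hr => ⟨(hrs r hr).1, LHK3_dvd k _ hk24 (hrs r hr).1⟩⟩
  symm
  refine Finset.sum_of_injOn (fun r => 2 * r + 1) ?_ ?_ ?_ ?_
  · intro r _ r' _ h
    have : 2 * r + 1 = 2 * r' + 1 := h
    omega
  · intro r hr
    obtain ⟨hm1, he⟩ := hrs r hr
    have hmem : 2 * r + 1 ∈ us a k ((24 * n + 3 - 2 ^ a : ℕ) : ℤ) := by
      unfold us
      rw [Finset.mem_filter, Finset.mem_range]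
      refine ⟨?_, by omega, ?_⟩
      · have h1 : (0 : ℤ) ≤ 2 ^ a * (24 * (((n - tri r) / 2 ^ a : ℕ) : ℤ) - 1) := by
          apply mul_nonneg hApos.le
          omega
        have h2 : (0 : ℤ) ≤ (k : ℤ) * 2 ^ a := by positivity
        have h3 : ((2 * r + 1 : ℕ) : ℤ) ≤ 3 * ((2 * r + 1 : ℕ) : ℤ) ^ 2 := by
          have : (2 * r + 1 : ℕ) ≤ 3 * (2 * r + 1 : ℕ) ^ 2 := by nlinarith
          exact_mod_cast this
        have h4 : ((2 * r + 1 : ℕ) : ℤ) ≤ ((24 * n + 3 - 2 ^ a : ℕ) : ℤ) + k * 2 ^ a := by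
          linarith
        omega
      · exact ⟨_, he⟩
    exact hmem
  · intro u hu hnot
    unfold us at hu
    rw [Finset.mem_filter, Finset.mem_range] at hu
    obtain ⟨_, hodd, c, hc⟩ := hu
    have hdiv : (((24 * n + 3 - 2 ^ a : ℕ) : ℤ) - 3 * (u : ℤ) ^ 2) / 2 ^ a = c := by
      rw [hc, Int.mul_ediv_cancel_left _ hA0]
    rw [hdiv]
    by_cases h23 : c % 24 = 23
    · by_cases hneg : c < 0
      · rw [hJN k c hkp.pos hneg, if_neg]
        intro hck
        apply hN u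
        rw [hc, hck]
        exact ⟨-(2 ^ a), by ring⟩
      · exfalso
        apply hnot
        obtain ⟨r, hr⟩ : ∃ r, u = 2 * r + 1 := ⟨u / 2, by omega⟩
        obtain ⟨m, hm⟩ : ∃ m : ℤ, c = 24 * m - 1 := ⟨(c + 1) / 24, by omega⟩
        have hm1 : 1 ≤ m := by omega
        obtain ⟨m', rfl⟩ : ∃ m' : ℕ, m = m' := ⟨m.toNat, by omega⟩
        have ht : (3 : ℤ) * (u : ℤ) ^ 2 = 24 * (tri r : ℤ) + 3 := by
          rw [hr]
          exact_mod_cast LHK_tri r
        rw [hM, ht, hm] at hc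
        have hn : (n : ℤ) = tri r + 2 ^ a * m' := by linarith
        have hn' : n = tri r + 2 ^ a * m' := by exact_mod_cast hn
        refine ⟨r, ?_, hr.symm⟩
        have hmem : r ∈ rs (2 ^ a) n := by
          unfold rs
          rw [Finset.mem_filter, Finset.mem_range]
          have := LHK_le r
          refine ⟨by omega, by omega, ?_⟩
          rw [hn', Nat.add_sub_cancel_left]
          exact dvd_mul_right _ _
        exact hmem
    · exact LHK_zero k hkp hk24 c h23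
  · intro r hr
    obtain ⟨hm1, he⟩ := hrs r hr
    rw [he, Int.mul_ediv_cancel_left _ hA0]
    symm
    apply LHK_val k hkp hk24 _ hm1
    intro hd
    apply hN (2 * r + 1)
    rw [he]
    have hcast : ((24 * ((n - tri r) / 2 ^ a) - 1 : ℕ) : ℤ) =
        24 * (((n - tri r) / 2 ^ a : ℕ) : ℤ) - 1 := by omega
    rw [← hcast]
    exact Dvd.dvd.mul_left (by exact_mod_cast hd) _

end Pool.Agent.TSC
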